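import Pool.Agent.H88.CR.Targets
import Pool.Agent.H85.JN

/-!
Rotund ranges for the weak maximizing property (MP_479f73_an), row NUL: a separable reflexive
range for an infinite-dimensional reflexive space.
-/

set_option autoImplicit false

open Filter Topology Set Pool.Agent.H85.WMP Pool.Agent.H88.WR Pool.Agent.H88.CR

namespace Pool.Agent.H89.CR

theorem sepY (𝕜 : Type) [RCLike 𝕜] (D : Type) [NormedAddCommGroup D] [NormedSpace 𝕜 D]
    (g : ℕ → D) : TopologicalSpace.SeparableSpace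
    ((Submodule.span 𝕜 (range g)).topologicalClosure) := by
  have h1 : TopologicalSpace.IsSeparable
      ((Submodule.span 𝕜 (range g) : Submodule 𝕜 D) : Set D) :=
    TopologicalSpace.IsSeparable.span (R := 𝕜) (Set.countable_range g).isSeparable
  have h2 := h1.closure
  rw [← Submodule.topologicalClosure_coe] at h2
  exact h2.separableSpace

theorem nulY (𝕜 : Type) [RCLike 𝕜] (E : Type) [NormedAddCommGroup E] [NormedSpace 𝕜 E]
    (D : Type) [NormedAddCommGroup D] [NormedSpace 𝕜 D] (J : E →L[𝕜] StrongDual 𝕜 D)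
    (Y : Submodule 𝕜 D) (g : ℕ → D) (hgY : ∀ n, g n ∈ Y)
    (hg1 : ∀ n, ‖g n‖ = 1) (hg0 : ∀ z, Tendsto (fun n => J z (g n)) atTop (𝓝 0))
    (hJ : ∀ (n : ℕ) (ζ : StrongDual 𝕜 E), (∀ z, ζ z = J z (g n)) → ‖ζ‖ = 1)
    (h1 : Refl 𝕜 (StrongDual 𝕜 Y)) (h2 : TopologicalSpace.SeparableSpace (StrongDual 𝕜 Y)) :
  ∃ (F : Type) (_ : NormedAddCommGroup F) (_ : NormedSpace 𝕜 F) (_ : CompleteSpace F)
    (T : E →L[𝕜] F) (ψ : ℕ → StrongDual 𝕜 F), Refl 𝕜 F ∧ TopologicalSpace.SeparableSpace F ∧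
    (∀ n, ‖ψ n‖ ≤ 1) ∧ (∀ n, ‖(ψ n).comp T‖ = 1) ∧
    ∀ z : E, Tendsto (fun n => ψ n (T z)) atTop (𝓝 0) := by
  refine ⟨StrongDual 𝕜 Y, inferInstance, inferInstance, inferInstance,
    ((ContinuousLinearMap.compL 𝕜 Y D 𝕜).flip Y.subtypeL).comp J,
    fun n => NormedSpace.inclusionInDoubleDual 𝕜 Y ⟨g n, hgY n⟩, h1, h2, fun n => ?_,
    fun n => ?_, fun z => ?_⟩
  · exact (NormedSpace.double_dual_bound 𝕜 Y _).trans (hg1 n).le
  · exact hJ n _ fun z => rfl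
  · exact hg0 z

theorem pf_NUL (𝕜 : Type) [RCLike 𝕜] (hRFD : T_RFD 𝕜) (hDSP : T_DSP 𝕜) (hSRF : T_SRF 𝕜) :
    T_NUL 𝕜 := by
  intro E _ _ hR hE
  obtain ⟨g, hg1, hg0⟩ := Pool.Agent.H85.JN.josefson_nissenzweig (𝕜 := 𝕜) (E := E) hE
  have hYR := hSRF (StrongDual 𝕜 E) ((Submodule.span 𝕜 (range g)).topologicalClosure)
    (hRFD E hR) (Submodule.isClosed_topologicalClosure _)
  refine nulY 𝕜 E (StrongDual 𝕜 E) (NormedSpace.inclusionInDoubleDual 𝕜 E)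
    ((Submodule.span 𝕜 (range g)).topologicalClosure) g
    (fun n => Submodule.le_topologicalClosure _ (Submodule.subset_span ⟨n, rfl⟩)) hg1 hg0
    (fun n ζ hζ => ?_) (hRFD _ hYR) (hDSP _ hYR (sepY 𝕜 (StrongDual 𝕜 E) g))
  have : ζ = g n := by
    ext z
    exact hζ z
  rw [this, hg1 n]

end Pool.Agent.H89.CR
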